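import Pool.Agent.H1.MV.OrthogonalSpeed

/-!
# MP_68c21c_an: essential monotonicity of the orthogonal speed

The answer to Q1 is positive: if `h(𝔻) ⊆ k(𝔻)` for the Koenigs functions of two non-elliptic
semigroups, then the orthogonal speeds satisfy `v° ≥ ṽ° - C` for all `t ≥ 0`.
-/

namespace Pool.Agent.Results.MP_68c21c_an.OrthogonalSpeed

open Pool.H1.MV.OrthogonalSpeed

open Complex Metric Set Filter Topology ComplexConjugate

open H31.Orth

/-- **Main result.**  The nearest point projection is well defined, and if `h(𝔻) ⊆ k(𝔻)` for the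
Koenigs functions `h`, `k` of two non-elliptic semigroups `φ`, `ψ` (parabolic or not), then the
orthogonal speeds satisfy `v°_ψ(t) - C ≤ v°_φ(t)` for all `t ≥ 0`; in particular the liminf in Q1
is `> -∞`. -/
theorem result :
    (∀ τ z : ℂ, ‖τ‖ = 1 → z ∈ ball (0 : ℂ) 1 → ∃! p, IsNearest τ z p) ∧
    ∀ (φ ψ : ℝ → ℂ → ℂ) (τ σ : ℂ) (h k : ℂ → ℂ),
      IsNonEllipticSemigroup φ → IsNonEllipticSemigroup ψ →
      IsDenjoyWolff φ τ → IsDenjoyWolff ψ σ → IsKoenigs φ h → IsKoenigs ψ k →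
      h '' ball 0 1 ⊆ k '' ball 0 1 →
      (∃ C : ℝ, ∀ t : ℝ, 0 ≤ t → orthogonalSpeed ψ σ t - C ≤ orthogonalSpeed φ τ t) ∧
      (⊥ : EReal) < Filter.liminf
        (fun t : ℝ => ((orthogonalSpeed φ τ t - orthogonalSpeed ψ σ t : ℝ) : EReal)) atTop :=
  Pool.H1.MV.OrthogonalSpeed.result

end Pool.Agent.Results.MP_68c21c_an.OrthogonalSpeed
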